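import Pool.Agent.R281.SEC.Step2

/-!
# SEC-GEO: from the sector to the one-dimensional problem
-/

set_option autoImplicit false

open MeasureTheory Set Filter
open scoped ENNReal

namespace Pool.Agent.R281.SEC

open Pool.R872.SEC

/-- the distances -/
noncomputable def kap (θ₀ : ℝ) (j : ℕ) : ℝ := θ₀ / (4 * ((j : ℝ) + 1))

lemma kap_pos {θ₀ : ℝ} (hθ : 0 < θ₀) (j : ℕ) : 0 < kap θ₀ j := by
  unfold kap
  positivity

lemma kap_lt {θ₀ : ℝ} (hθ : 0 < θ₀) (j : ℕ) : kap θ₀ j < θ₀ / 2 := by
  unfold kap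
  rw [div_lt_div_iff₀ (by positivity) (by norm_num)]
  have : (0:ℝ) ≤ j := Nat.cast_nonneg j
  nlinarith

lemma kap_tend (θ₀ : ℝ) : Tendsto (kap θ₀) atTop (nhds 0) := by
  have h := (tendsto_one_div_add_atTop_nhds_zero_nat (𝕜 := ℝ)).const_mul (θ₀ / 4)
  rw [mul_zero] at h
  refine h.congr (fun j => ?_)
  unfold kap
  have : (0:ℝ) < (j:ℝ) + 1 := by positivity
  field_simp

lemma chi_tend {θ₀ : ℝ} {R : Set (ℝ × ℝ)} (hRs : R ⊆ sector θ₀) (x : ℝ × ℝ) :
    Tendsto (fun j : ℕ => chi θ₀ (kap θ₀ j) R x) atTop (nhds (R.indicator (fun _ => (1:ℝ)) x)) := by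
  by_cases hx : x ∈ R
  · rw [indicator_of_mem hx]
    obtain ⟨-, h2, h3⟩ := hRs hx
    apply tendsto_const_nhds.congr'
    have h4 := (kap_tend θ₀).eventually (gt_mem_nhds (show 0 < min x.2 (θ₀ - x.2) from
      lt_min h2 (by linarith)))
    filter_upwards [h4] with j hj
    unfold chi
    rw [indicator_of_mem hx]
    have h5 := lt_min_iff.1 hj
    unfold jj
    rw [indicator_of_mem]
    exact ⟨h5.1.le, by linarith [h5.2]⟩
  · rw [indicator_of_notMem hx]
    apply tendsto_const_nhds.congr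
    intro j
    unfold chi
    rw [indicator_of_notMem hx]

lemma AA_tend {θ₀ : ℝ} (hθ : 0 < θ₀) {R : Set (ℝ × ℝ)} (hR : MeasurableSet R)
    (hRs : R ⊆ sector θ₀) (r : ℝ) :
    Tendsto (fun j : ℕ => AA θ₀ (kap θ₀ j) R r) atTop (nhds (θ₀ * lamOf θ₀ R r)) := by
  have h1 : Tendsto (fun j : ℕ => ∫ s, chi θ₀ (kap θ₀ j) R (r, s)) atTop
      (nhds (∫ s, R.indicator (fun _ => (1:ℝ)) (r, s))) := by
    apply tendsto_integral_of_dominated_convergence (jj 0 θ₀)
    · intro j
      exact (slice_meas θ₀ _ R hR r).aestronglyMeasurable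
    · exact jj_int
    · intro j
      refine ae_of_all _ fun s => ?_
      rw [Real.norm_eq_abs, abs_of_nonneg (chi_nonneg _ _ _ _)]
      refine (chi_le _ _ _ _).trans ?_
      unfold jj
      apply indicator_le_indicator_of_subset
      · apply Icc_subset_Icc (kap_pos hθ j).le
        linarith [kap_pos hθ j]
      · intro _
        exact zero_le_one
    · exact ae_of_all _ fun s => chi_tend hRs (r, s)
  have h2 : ∫ s, R.indicator (fun _ => (1:ℝ)) (r, s) = θ₀ * lamOf θ₀ R r := by
    have hm : MeasurableSet {θ : ℝ | (r, θ) ∈ R} := measurable_prodMk_left hR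
    have e : (fun s => R.indicator (fun _ => (1:ℝ)) (r, s)) =
        {θ : ℝ | (r, θ) ∈ R}.indicator (fun _ => (1:ℝ)) := by
      funext s
      by_cases hs : (r, s) ∈ R
      · rw [indicator_of_mem hs, indicator_of_mem (show s ∈ {θ : ℝ | (r, θ) ∈ R} from hs)]
      · rw [indicator_of_notMem hs, indicator_of_notMem (show s ∉ {θ : ℝ | (r, θ) ∈ R} from hs)]
    rw [e, integral_indicator hm, setIntegral_const, smul_eq_mul, mul_one]
    unfold lamOf
    rw [mul_div_cancel₀ _ hθ.ne']
    rfl
  rw [← h2]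
  exact h1

lemma mu_tend {θ₀ : ℝ} (hθ : 0 < θ₀) {R : Set (ℝ × ℝ)} (hR : MeasurableSet R)
    (hRs : R ⊆ sector θ₀) (r : ℝ) :
    Tendsto (fun j : ℕ => mu θ₀ (kap θ₀ j) R r) atTop (nhds (lamOf θ₀ R r)) := by
  have h1 := (AA_tend hθ hR hRs r).div ((kap_tend θ₀).const_mul 2 |>.const_sub θ₀)
    (by simpa using hθ.ne')
  have e : θ₀ * lamOf θ₀ R r / (θ₀ - 2 * 0) = lamOf θ₀ R r := by
    rw [mul_zero, sub_zero, mul_div_cancel_left₀ _ hθ.ne']
  rw [e] at h1
  exact h1

lemma lam_meas {θ₀ : ℝ} (hθ : 0 < θ₀) {R : Set (ℝ × ℝ)} (hR : MeasurableSet R)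
    (hRs : R ⊆ sector θ₀) : Measurable (lamOf θ₀ R) :=
  measurable_of_tendsto_metrizable (fun j => mu_meas θ₀ (kap θ₀ j) R hR)
    (tendsto_pi_nhds.2 fun r => mu_tend hθ hR hRs r)

theorem GEO (h : S_MOL) : S_GEO := by
  intro θ₀ p hθ hp R hR hRs P hP hper g β hA
  obtain ⟨gm, ⟨C, gb⟩, bm, b0, ⟨c, d, hc, hcd, g0, bz⟩, gi, nm⟩ := hA
  have D : Dat (p + 1) c d C g β := ⟨hc, hcd, by linarith, gm, gb, bm, b0, g0, bz, gi, nm⟩
  have hC0 := D.C0
  set S : Set ℝ := {r | 0 < lamOf θ₀ R r ∧ lamOf θ₀ R r < 1} with hS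
  have hSm : MeasurableSet S :=
    (measurableSet_lt measurable_const (lam_meas hθ hR hRs)).inter
      (measurableSet_lt (lam_meas hθ hR hRs) measurable_const)
  set q : ℕ → ℝ → ℝ := fun j r => if 1 / ((j:ℝ) + 1) ≤ mu θ₀ (kap θ₀ j) R r *
    (1 - mu θ₀ (kap θ₀ j) R r) then 1 else 0 with hq
  have hq0 : ∀ j r, 0 ≤ q j r := by
    intro j r
    simp only [hq]
    split_ifs <;> norm_num
  have hq1 : ∀ j r, q j r ≤ 1 := by
    intro j r
    simp only [hq]
    split_ifs <;> norm_num
  have hqm : ∀ j, Measurable (q j) := by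
    intro j
    have h1 := mu_meas θ₀ (kap θ₀ j) R hR
    exact Measurable.ite (measurableSet_le measurable_const (h1.mul (measurable_const.sub h1)))
      measurable_const measurable_const
  have hb : ∀ r, 0 ≤ r ^ p * β r ∧ r ^ p * β r ≤ (Icc c d).indicator (fun _ => d ^ p) r := by
    intro r
    by_cases h1 : r ∈ Icc c d
    · rw [indicator_of_mem h1]
      have h0 : 0 < r := lt_of_lt_of_le hc h1.1
      have h7 : 0 < r ^ p := Real.rpow_pos_of_pos h0 p
      have h6 : r ^ p ≤ d ^ p := Real.rpow_le_rpow h0.le h1.2 hp.le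
      refine ⟨mul_nonneg h7.le (b0 r), ?_⟩
      calc _ ≤ r ^ p * 1 := mul_le_mul_of_nonneg_left (D.b1 r) h7.le
        _ ≤ _ := by rw [mul_one]; exact h6
    · rw [indicator_of_notMem h1, bz _ h1, mul_zero]
      exact ⟨le_rfl, le_rfl⟩
  have hg : ∀ r, |g r| ≤ (Icc c d).indicator (fun _ => C) r := by
    intro r
    by_cases h1 : r ∈ Icc c d
    · rw [indicator_of_mem h1]
      exact gb r
    · rw [indicator_of_notMem h1, g0 _ h1, abs_zero]
  have hAb : ∀ j r, |AA θ₀ (kap θ₀ j) R r| ≤ θ₀ := by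
    intro j r
    rw [abs_of_nonneg (AA_nonneg _ _ _ _)]
    have := AA_le R hR (kap_lt hθ j) r
    have := kap_pos hθ j
    linarith
  -- the dominating function
  set B : ℝ → ℝ := fun r => (Icc c d).indicator (fun _ => C) r * θ₀ +
    (Icc c d).indicator (fun _ => d ^ p) r with hB
  have hBi : Integrable B := by
    apply Integrable.add
    · exact ((integrable_indicator_iff measurableSet_Icc).2
        (integrableOn_const (by simp))).mul_const _
    · exact (integrable_indicator_iff measurableSet_Icc).2 (integrableOn_const (by simp))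
  have hpm : Measurable (fun r : ℝ => r ^ p * β r) := (measurable_id.pow_const _).mul bm
  set f : ℕ → ℝ → ℝ := fun j r => g r * AA θ₀ (kap θ₀ j) R r +
    S.indicator (fun r => r ^ p * β r * q j r) r with hf
  have hfm : ∀ j, Measurable (f j) := fun j =>
    (gm.mul (AA_meas θ₀ _ R hR)).add ((hpm.mul (hqm j)).indicator hSm)
  have hfb : ∀ j r, ‖f j r‖ ≤ B r := by
    intro j r
    rw [Real.norm_eq_abs]
    refine (abs_add_le _ _).trans (add_le_add ?_ ?_)
    · rw [abs_mul]
      exact mul_le_mul (hg r) (hAb j r) (abs_nonneg _) ((abs_nonneg _).trans (hg r))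
    · have h1 := hb r
      have h2 : 0 ≤ r ^ p * β r * q j r := mul_nonneg h1.1 (hq0 j r)
      have h3 : r ^ p * β r * q j r ≤ r ^ p * β r := mul_le_of_le_one_right h1.1 (hq1 j r)
      by_cases hr : r ∈ S
      · rw [indicator_of_mem hr, abs_of_nonneg h2]
        exact h3.trans h1.2
      · rw [indicator_of_notMem hr, abs_zero]
        exact h1.1.trans h1.2
  have hfi : ∀ j, Integrable (f j) := fun j =>
    hBi.mono' (hfm j).aestronglyMeasurable (ae_of_all _ (hfb j))
  have hle : ∀ j, ∫ r, f j r ≤ P := by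
    intro j
    have h1 := step D R hR hRs (kap_pos hθ j) (kap_lt hθ j) (k := (j:ℝ) + 1) (by positivity) h hθ
      hp hP hper
    refine le_trans (integral_mono (hfi j) ?_ ?_) h1
    · refine hBi.mono' ?_ (ae_of_all _ fun r => ?_)
      · exact ((gm.mul (AA_meas θ₀ _ R hR)).add (hpm.mul (hqm j))).aestronglyMeasurable
      · rw [Real.norm_eq_abs]
        refine (abs_add_le _ _).trans (add_le_add ?_ ?_)
        · rw [abs_mul]
          exact mul_le_mul (hg r) (hAb j r) (abs_nonneg _) ((abs_nonneg _).trans (hg r))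
        · have h1 := hb r
          have h2 : 0 ≤ r ^ p * β r * q j r := mul_nonneg h1.1 (hq0 j r)
          have h3 : r ^ p * β r * q j r ≤ r ^ p * β r := mul_le_of_le_one_right h1.1 (hq1 j r)
          change |r ^ p * β r * q j r| ≤ _
          rw [abs_of_nonneg h2]
          exact h3.trans h1.2
    · intro r
      change g r * AA θ₀ (kap θ₀ j) R r + S.indicator (fun r => r ^ p * β r * q j r) r ≤
        g r * AA θ₀ (kap θ₀ j) R r + r ^ p * β r * q j r
      have h2 : 0 ≤ r ^ p * β r * q j r := mul_nonneg (hb r).1 (hq0 j r)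
      by_cases hr : r ∈ S
      · rw [indicator_of_mem hr]
      · rw [indicator_of_notMem hr]
        linarith
  have hlim : Tendsto (fun j => ∫ r, f j r) atTop (nhds (∫ r, (g r * (θ₀ * lamOf θ₀ R r) +
      S.indicator (fun r => r ^ p * β r) r))) := by
    apply tendsto_integral_of_dominated_convergence B
    · exact fun j => (hfm j).aestronglyMeasurable
    · exact hBi
    · exact fun j => ae_of_all _ (hfb j)
    · refine ae_of_all _ fun r => ?_
      apply Tendsto.add
      · exact (AA_tend hθ hR hRs r).const_mul _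
      · by_cases hr : r ∈ S
        · rw [indicator_of_mem hr]
          apply tendsto_const_nhds.congr'
          have h1 := mu_tend hθ hR hRs r
          have h2 : Tendsto (fun j : ℕ => mu θ₀ (kap θ₀ j) R r * (1 - mu θ₀ (kap θ₀ j) R r) -
              1 / ((j:ℝ) + 1)) atTop (nhds (lamOf θ₀ R r * (1 - lamOf θ₀ R r) - 0)) :=
            (h1.mul (h1.const_sub 1)).sub tendsto_one_div_add_atTop_nhds_zero_nat
          have h3 : 0 < lamOf θ₀ R r * (1 - lamOf θ₀ R r) - 0 := by
            rw [sub_zero]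
            exact mul_pos hr.1 (by linarith [hr.2])
          filter_upwards [h2.eventually (lt_mem_nhds h3)] with j hj
          rw [indicator_of_mem hr]
          have : q j r = 1 := by
            simp only [hq]
            rw [if_pos (by linarith)]
          rw [this, mul_one]
        · rw [indicator_of_notMem hr]
          apply tendsto_const_nhds.congr
          intro j
          rw [indicator_of_notMem hr]
  have hfin := le_of_tendsto' hlim hle
  have hlb : ∀ r, |lamOf θ₀ R r| ≤ 1 := by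
    intro r
    have h1 := mu_tend hθ hR hRs r
    have h2 : 0 ≤ lamOf θ₀ R r := ge_of_tendsto' h1 fun j => mu_nonneg R (kap_lt hθ j) r
    rw [abs_of_nonneg h2]
    exact le_of_tendsto' h1 fun j => mu_le R hR (kap_lt hθ j) r
  rw [integral_add] at hfin
  · unfold T
    rw [integral_indicator hSm] at hfin
    have e1 : ∫ r, g r * (θ₀ * lamOf θ₀ R r) = θ₀ * ∫ r, lamOf θ₀ R r * g r := by
      rw [← integral_const_mul]
      congr 1
      funext r
      ring
    rw [e1] at hfin
    have e2 : p + 1 - 1 = p := by ring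
    rw [e2]
    exact hfin
  · refine hBi.mono' ?_ (ae_of_all _ fun r => ?_)
    · exact (gm.mul (measurable_const.mul (lam_meas hθ hR hRs))).aestronglyMeasurable
    · rw [Real.norm_eq_abs, abs_mul, abs_mul, abs_of_pos hθ]
      have h1 := hg r
      have h2 := hlb r
      have h3 := (hb r).1.trans (hb r).2
      have h4 : |g r| * (θ₀ * |lamOf θ₀ R r|) ≤ (Icc c d).indicator (fun _ => C) r * θ₀ := by
        apply mul_le_mul h1 _ (by positivity) ((abs_nonneg _).trans h1)
        exact mul_le_of_le_one_right hθ.le h2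
      change _ ≤ (Icc c d).indicator (fun _ => C) r * θ₀ + (Icc c d).indicator (fun _ => d ^ p) r
      linarith
  · refine hBi.mono' (hpm.indicator hSm).aestronglyMeasurable (ae_of_all _ fun r => ?_)
    have h1 := hb r
    have h5 : 0 ≤ (Icc c d).indicator (fun _ => C) r * θ₀ :=
      mul_nonneg ((abs_nonneg _).trans (hg r)) hθ.le
    rw [Real.norm_eq_abs]
    change _ ≤ (Icc c d).indicator (fun _ => C) r * θ₀ + (Icc c d).indicator (fun _ => d ^ p) r
    by_cases hr : r ∈ S
    · rw [indicator_of_mem hr, abs_of_nonneg h1.1]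
      linarith [h1.2]
    · rw [indicator_of_notMem hr, abs_zero]
      linarith [h1.1.trans h1.2]

end Pool.Agent.R281.SEC
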