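import Pool.Agent.R872.SEC.Stm

/-!
# SEC-GEO, part 1: the primitive of a quotient
-/

set_option autoImplicit false

open MeasureTheory Set

namespace Pool.Agent.R281.SEC

lemma integ {c d C : ℝ} {g : ℝ → ℝ} (hgm : Measurable g) (hgb : ∀ r, |g r| ≤ C)
    (hg0 : ∀ r, r ∉ Icc c d → g r = 0) : Integrable g := by
  have h : Integrable ((Icc c d).indicator (fun _ => C)) :=
    (integrable_indicator_iff measurableSet_Icc).2 (integrableOn_const (by simp))
  refine h.mono' hgm.aestronglyMeasurable (ae_of_all _ fun x => ?_)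
  by_cases hx : x ∈ Icc c d
  · rw [indicator_of_mem hx]
    exact hgb x
  · rw [hg0 x hx, indicator_of_notMem hx]
    simp

lemma Y_left {c d : ℝ} {g : ℝ → ℝ} (hc : 0 < c) (hg0 : ∀ r, r ∉ Icc c d → g r = 0)
    (r : ℝ) (hr : r ≤ c) : ∫ s in (0:ℝ)..r, g s = 0 := by
  rw [intervalIntegral.integral_congr_ae (g := fun _ => (0:ℝ))]
  · simp
  · have hne : ∀ᵐ s : ℝ, s ≠ c := compl_mem_ae_iff.2 (measure_singleton c)
    filter_upwards [hne] with s hs hs2
    apply hg0
    intro h3
    have h4 : s ≤ max 0 r := hs2.2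
    have h5 : max 0 r ≤ c := max_le hc.le hr
    exact hs (le_antisymm (h4.trans h5) h3.1)

lemma Y_right {c d : ℝ} {g : ℝ → ℝ} (hc : 0 < c) (hcd : c < d)
    (hg0 : ∀ r, r ∉ Icc c d → g r = 0) (hgi : ∫ r, g r = 0)
    (r : ℝ) (hr : d ≤ r) : ∫ s in (0:ℝ)..r, g s = 0 := by
  rw [intervalIntegral.integral_of_le (by linarith), setIntegral_eq_integral_of_forall_compl_eq_zero,
    hgi]
  intro x hx
  apply hg0
  intro h
  apply hx
  exact ⟨by linarith [h.1], by linarith [h.2]⟩

lemma prim (n : ℝ) {c d C : ℝ} {g : ℝ → ℝ} (hc : 0 < c) (hcd : c < d) (hgm : Measurable g)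
    (hgb : ∀ r, |g r| ≤ C) (hg0 : ∀ r, r ∉ Icc c d → g r = 0) (hgi : ∫ r, g r = 0) (r : ℝ) :
    (∫ s in (0:ℝ)..r, (Icc c d).indicator (fun s => g s * s ^ (-n) -
      n * (∫ u in (0:ℝ)..s, g u) * s ^ (-n - 1)) s) =
    if r ∈ Icc c d then (∫ u in (0:ℝ)..r, g u) * r ^ (-n) else 0 := by
  have hgI := integ hgm hgb hg0
  set Y : ℝ → ℝ := fun r => ∫ u in (0:ℝ)..r, g u with hY
  set G : ℝ → ℝ := (Icc c d).indicator (fun s => g s * s ^ (-n) - n * Y s * s ^ (-n - 1)) with hG
  have hYc : Continuous Y := intervalIntegral.continuous_primitive (fun a b => hgI.intervalIntegrable) 0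
  have hGI : Integrable G := by
    rw [hG, integrable_indicator_iff measurableSet_Icc]
    have hp1 : ContinuousOn (fun s : ℝ => s ^ (-n)) (Icc c d) := by
      intro x hx
      exact (Real.continuousAt_rpow_const x _ (Or.inl (by linarith [hx.1]))).continuousWithinAt
    have hp2 : ContinuousOn (fun s : ℝ => s ^ (-n - 1)) (Icc c d) := by
      intro x hx
      exact (Real.continuousAt_rpow_const x _ (Or.inl (by linarith [hx.1]))).continuousWithinAt
    apply Integrable.sub
    · exact hgI.integrableOn.mul_continuousOn hp1 isCompact_Icc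
    · exact (((continuous_const.mul hYc).continuousOn).mul hp2).integrableOn_compact isCompact_Icc
  have hGi : ∀ a b, IntervalIntegrable G volume a b := fun a b => hGI.intervalIntegrable
  have hleft : ∀ r ≤ c, ∫ s in (0:ℝ)..r, G s = 0 := fun r hr =>
    Y_left (d := d) hc (fun s hs => by rw [hG, indicator_of_notMem hs]) r hr
  have hmid : ∀ r ∈ Icc c d, ∫ s in (0:ℝ)..r, G s = Y r * r ^ (-n) := by
    intro r hr
    rw [← intervalIntegral.integral_add_adjacent_intervals (hGi 0 c) (hGi c r), hleft c le_rfl,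
      zero_add]
    have hac1 : AbsolutelyContinuousOnInterval Y c r := by
      have h1 : AbsolutelyContinuousOnInterval Y 0 d :=
        (hgI.intervalIntegrable (a := 0) (b := d)).absolutelyContinuousOnInterval_intervalIntegral
          (by rw [uIcc_of_le (by linarith)]; exact ⟨le_rfl, by linarith⟩)
      apply h1.mono
      rw [uIcc_of_le hr.1, uIcc_of_le (by linarith)]
      exact Icc_subset_Icc hc.le hr.2
    have hac2 : AbsolutelyContinuousOnInterval (fun x : ℝ => x ^ (-n)) c r := by
      apply ContDiffOn.absolutelyContinuousOnInterval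
      apply ContDiffOn.rpow_const_of_ne contDiffOn_id
      intro x hx
      rw [uIcc_of_le hr.1] at hx
      have : 0 < x := by linarith [hx.1]
      exact this.ne'
    have h2 := (hac1.fun_mul hac2).integral_deriv_eq_sub
    have hYc0 : Y c = 0 := Y_left hc hg0 c le_rfl
    rw [hYc0, zero_mul, sub_zero] at h2
    rw [← h2]
    apply intervalIntegral.integral_congr_ae
    filter_upwards [LocallyIntegrable.ae_hasDerivAt_integral hgI.locallyIntegrable] with x hx hx2
    rw [uIoc_of_le hr.1] at hx2
    have hx0 : 0 < x := by linarith [hx2.1]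
    have h3 : HasDerivAt Y (g x) x := hx 0
    have h4 := Real.hasDerivAt_rpow_const (x := x) (p := -n) (Or.inl hx0.ne')
    have h5 := (h3.mul h4).deriv
    have h6 : deriv (fun x => Y x * x ^ (-n)) x = g x * x ^ (-n) + Y x * (-n * x ^ (-n - 1)) := h5
    have hxm : x ∈ Icc c d := ⟨hx2.1.le, hx2.2.trans hr.2⟩
    rw [h6, hG, indicator_of_mem hxm]
    ring
  by_cases hr : r ∈ Icc c d
  · rw [if_pos hr]
    exact hmid r hr
  · rw [if_neg hr]
    rcases lt_or_ge r c with h | h
    · exact hleft r h.le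
    · have hdr : d < r := by
        by_contra h2
        exact hr ⟨h, not_lt.1 h2⟩
      rw [← intervalIntegral.integral_add_adjacent_intervals (hGi 0 d) (hGi d r),
        hmid d ⟨hcd.le, le_rfl⟩]
      have h1 : Y d = 0 := Y_right hc hcd hg0 hgi d le_rfl
      rw [h1, zero_mul, zero_add]
      rw [intervalIntegral.integral_congr_ae (g := fun _ => (0:ℝ))]
      · simp
      · apply ae_of_all
        intro s hs
        rw [uIoc_of_le hdr.le] at hs
        rw [hG, indicator_of_notMem]
        intro h2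
        linarith [h2.2, hs.1]

end Pool.Agent.R281.SEC
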