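import Pool.Agent.R872.SEC.Stm

/-!
# SEC-GEO, part 2: slices
-/

set_option autoImplicit false

open MeasureTheory Set

namespace Pool.Agent.R281.SEC

section one

variable {a b : ℝ} {χ : ℝ → ℝ}

/-- the indicator of an interval -/
noncomputable def jj (a b : ℝ) : ℝ → ℝ := (Icc a b).indicator (fun _ => (1 : ℝ))

lemma jj_meas : Measurable (jj a b) := measurable_const.indicator measurableSet_Icc

lemma jj_nonneg (s : ℝ) : 0 ≤ jj a b s := indicator_nonneg (fun _ _ => zero_le_one) s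

lemma jj_le (s : ℝ) : jj a b s ≤ 1 := indicator_le_self' (fun _ _ => zero_le_one) s |>.trans le_rfl

lemma jj_out (s : ℝ) (hs : s ∉ Icc a b) : jj a b s = 0 := indicator_of_notMem hs _

lemma jj_int : Integrable (jj a b) :=
  (integrable_indicator_iff measurableSet_Icc).2 (integrableOn_const (by simp))

lemma jj_integral (hab : a ≤ b) : ∫ s, jj a b s = b - a := by
  unfold jj
  rw [integral_indicator measurableSet_Icc, setIntegral_const, smul_eq_mul, mul_one,
    Real.volume_real_Icc_of_le hab]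

lemma chi_int (hm : Measurable χ) (h0 : ∀ s, 0 ≤ χ s) (h1 : ∀ s, χ s ≤ jj a b s) :
    Integrable χ :=
  jj_int.mono' hm.aestronglyMeasurable (ae_of_all _ fun s => by
    rw [Real.norm_eq_abs, abs_of_nonneg (h0 s)]
    exact h1 s)

/-- all the facts on the integrals up to a point -/
lemma facts (hab : a < b) (ha : 0 < a) (hm : Measurable χ) (h0 : ∀ s, 0 ≤ χ s)
    (h1 : ∀ s, χ s ≤ jj a b s) (θ : ℝ) :
    0 ≤ ∫ s in Iic θ, χ s ∧ ∫ s in Iic θ, χ s ≤ ∫ s in Iic θ, jj a b s ∧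
    ∫ s in Iic θ, χ s ≤ ∫ s, χ s ∧
    (∫ s, χ s) - ∫ s in Iic θ, χ s ≤ (b - a) - ∫ s in Iic θ, jj a b s ∧
    (θ < a → ∫ s in Iic θ, χ s = 0) ∧ (b < θ → ∫ s in Iic θ, χ s = ∫ s, χ s) ∧
    ∫ s in (0:ℝ)..θ, χ s = ∫ s in Iic θ, χ s := by
  have hi := chi_int hm h0 h1
  have hz : ∀ s, s ∉ Icc a b → χ s = 0 := by
    intro s hs
    have := h1 s
    rw [jj_out s hs] at this
    exact le_antisymm this (h0 s)
  have hlt : ∀ θ, θ < a → ∫ s in Iic θ, χ s = 0 := by
    intro θ hθ
    apply setIntegral_eq_zero_of_forall_eq_zero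
    intro s hs
    apply hz
    intro h
    have : s ≤ θ := hs
    linarith [h.1]
  have hadd : ∀ f : ℝ → ℝ, Integrable f → (∫ s in Iic θ, f s) + ∫ s in Ioi θ, f s = ∫ s, f s := by
    intro f hf
    have := integral_add_compl (measurableSet_Iic (a := θ)) hf
    rwa [compl_Iic] at this
  refine ⟨?_, ?_, ?_, ?_, hlt θ, ?_, ?_⟩
  · exact integral_nonneg fun s => h0 s
  · exact integral_mono hi.integrableOn jj_int.integrableOn h1
  · have h2 := hadd χ hi
    have h3 : 0 ≤ ∫ s in Ioi θ, χ s := integral_nonneg fun s => h0 s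
    linarith
  · have h2 := hadd χ hi
    have h3 := hadd (jj a b) jj_int
    rw [jj_integral hab.le] at h3
    have h4 : ∫ s in Ioi θ, χ s ≤ ∫ s in Ioi θ, jj a b s :=
      integral_mono hi.integrableOn jj_int.integrableOn h1
    linarith
  · intro hθ
    have h2 := hadd χ hi
    have h3 : ∫ s in Ioi θ, χ s = 0 := by
      apply setIntegral_eq_zero_of_forall_eq_zero
      intro s hs
      apply hz
      intro h
      have : θ < s := hs
      linarith [h.2]
    linarith
  · have h2 := intervalIntegral.integral_Iic_sub_Iic (a := 0) (b := θ) (μ := volume)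
      hi.integrableOn hi.integrableOn
    rw [hlt 0 ha, sub_zero] at h2
    exact h2.symm

end one

/-- the key bound -/
lemma combo {L A m t : ℝ} (hL : 0 < L) (h1 : 0 ≤ m) (h2 : m ≤ t) (h3 : m ≤ A)
    (h4 : A - m ≤ L - t) (hA : A ≤ L) :
    |m - A / L * t| ≤ L * (A / L * (1 - A / L)) := by
  obtain ⟨μ, hμ⟩ : ∃ μ, μ = A / L := ⟨_, rfl⟩
  have hA2 : A = L * μ := by rw [hμ]; field_simp
  have hμ0 : 0 ≤ μ := by
    rw [hμ]
    exact div_nonneg (h1.trans h3) hL.le
  have hμ1 : μ ≤ 1 := by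
    rw [hμ, div_le_one hL]
    exact hA
  rw [← hμ, abs_le]
  rw [hA2] at h3 h4
  constructor
  · nlinarith [mul_nonneg (sub_nonneg.2 hμ1) h1, mul_nonneg hμ0 (sub_nonneg.2 h4)]
  · nlinarith [mul_nonneg hμ0 (sub_nonneg.2 h2), mul_nonneg (sub_nonneg.2 hμ1) (sub_nonneg.2 h3)]

end Pool.Agent.R281.SEC
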