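import Pool.Agent.R281.SEC.Prim
import Pool.Agent.R281.SEC.Slice

/-!
# SEC-GEO, part 3: the inequality at a positive distance from the sides
-/

set_option autoImplicit false

open MeasureTheory Set
open scoped ENNReal

namespace Pool.Agent.R281.SEC

open Pool.R872.SEC

/-- the indicator of `R` in the smaller sector -/
noncomputable def chi (θ₀ κ : ℝ) (R : Set (ℝ × ℝ)) : ℝ × ℝ → ℝ :=
  R.indicator (fun x => jj κ (θ₀ - κ) x.2)

/-- the measure of the slice -/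
noncomputable def AA (θ₀ κ : ℝ) (R : Set (ℝ × ℝ)) (r : ℝ) : ℝ := ∫ s, chi θ₀ κ R (r, s)

/-- its proportion -/
noncomputable def mu (θ₀ κ : ℝ) (R : Set (ℝ × ℝ)) (r : ℝ) : ℝ := AA θ₀ κ R r / (θ₀ - 2 * κ)

/-- the weight -/
noncomputable def ww (θ₀ κ k : ℝ) (R : Set (ℝ × ℝ)) (r : ℝ) : ℝ :=
  if 1 / k ≤ mu θ₀ κ R r * (1 - mu θ₀ κ R r) then
    ((θ₀ - 2 * κ) * (mu θ₀ κ R r * (1 - mu θ₀ κ R r)))⁻¹ else 0

section meas

variable (θ₀ κ k : ℝ) (R : Set (ℝ × ℝ)) (hR : MeasurableSet R)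

include hR

lemma chi_meas : Measurable (chi θ₀ κ R) := (jj_meas.comp measurable_snd).indicator hR

lemma AA_meas : Measurable (AA θ₀ κ R) :=
  ((chi_meas θ₀ κ R hR).stronglyMeasurable.integral_prod_right').measurable

lemma mu_meas : Measurable (mu θ₀ κ R) := (AA_meas θ₀ κ R hR).div_const _

lemma ww_meas : Measurable (ww θ₀ κ k R) := by
  have h := mu_meas θ₀ κ R hR
  have h2 : Measurable (fun r => mu θ₀ κ R r * (1 - mu θ₀ κ R r)) := h.mul (measurable_const.sub h)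
  exact Measurable.ite (measurableSet_le measurable_const h2) (measurable_const.mul h2).inv
    measurable_const

lemma mm_meas : Measurable (fun x : ℝ × ℝ => ∫ s in Iic x.2, chi θ₀ κ R (x.1, s)) := by
  have h : Measurable (fun z : (ℝ × ℝ) × ℝ => if z.2 ≤ z.1.2 then chi θ₀ κ R (z.1.1, z.2) else 0) := by
    apply Measurable.ite
    · exact measurableSet_le measurable_snd (measurable_snd.comp measurable_fst)
    · exact (chi_meas θ₀ κ R hR).comp ((measurable_fst.comp measurable_fst).prodMk measurable_snd)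
    · exact measurable_const
  have h2 := (h.stronglyMeasurable.integral_prod_right' (ν := (volume : Measure ℝ))).measurable
  have e : (fun x : ℝ × ℝ => ∫ s in Iic x.2, chi θ₀ κ R (x.1, s)) =
      fun x => ∫ y, if y ≤ x.2 then chi θ₀ κ R (x.1, y) else 0 := by
    funext x
    rw [← integral_indicator measurableSet_Iic]
    congr 1
  rw [e]
  exact h2

end meas

lemma tt_meas (a b : ℝ) : Measurable (fun θ : ℝ => ∫ s in Iic θ, jj a b s) := by
  apply Monotone.measurable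
  intro θ θ' h
  exact setIntegral_mono_set jj_int.integrableOn (ae_of_all _ fun s => jj_nonneg s)
    (Iic_subset_Iic.2 h).eventuallyLE

lemma chi_nonneg (θ₀ κ : ℝ) (R : Set (ℝ × ℝ)) (x : ℝ × ℝ) : 0 ≤ chi θ₀ κ R x :=
  indicator_nonneg (fun x _ => jj_nonneg x.2) x

lemma chi_le (θ₀ κ : ℝ) (R : Set (ℝ × ℝ)) (x : ℝ × ℝ) : chi θ₀ κ R x ≤ jj κ (θ₀ - κ) x.2 :=
  indicator_le_self' (fun x _ => jj_nonneg x.2) x

lemma slice_meas (θ₀ κ : ℝ) (R : Set (ℝ × ℝ)) (hR : MeasurableSet R) (r : ℝ) :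
    Measurable (fun s => chi θ₀ κ R (r, s)) :=
  (chi_meas θ₀ κ R hR).comp (measurable_const.prodMk measurable_id)

lemma AA_nonneg (θ₀ κ : ℝ) (R : Set (ℝ × ℝ)) (r : ℝ) : 0 ≤ AA θ₀ κ R r :=
  integral_nonneg fun s => chi_nonneg θ₀ κ R (r, s)

lemma AA_le {θ₀ κ : ℝ} (R : Set (ℝ × ℝ)) (hR : MeasurableSet R) (hκ : κ < θ₀ / 2) (r : ℝ) :
    AA θ₀ κ R r ≤ θ₀ - 2 * κ := by
  have h := integral_mono (chi_int (slice_meas θ₀ κ R hR r) (fun s => chi_nonneg θ₀ κ R (r, s))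
    (fun s => chi_le θ₀ κ R (r, s))) (jj_int (a := κ) (b := θ₀ - κ))
    (fun s => chi_le θ₀ κ R (r, s))
  rw [jj_integral (by linarith)] at h
  have : AA θ₀ κ R r ≤ θ₀ - κ - κ := h
  linarith

lemma mu_nonneg {θ₀ κ : ℝ} (R : Set (ℝ × ℝ)) (hκ : κ < θ₀ / 2) (r : ℝ) : 0 ≤ mu θ₀ κ R r :=
  div_nonneg (AA_nonneg θ₀ κ R r) (by linarith)

lemma mu_le {θ₀ κ : ℝ} (R : Set (ℝ × ℝ)) (hR : MeasurableSet R) (hκ : κ < θ₀ / 2) (r : ℝ) :
    mu θ₀ κ R r ≤ 1 := by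
  unfold mu
  rw [div_le_one (by linarith)]
  exact AA_le R hR hκ r

lemma AA_eq {θ₀ κ : ℝ} (R : Set (ℝ × ℝ)) (hκ : κ < θ₀ / 2) (r : ℝ) :
    AA θ₀ κ R r = (θ₀ - 2 * κ) * mu θ₀ κ R r := by
  have : (0:ℝ) < θ₀ - 2 * κ := by linarith
  unfold mu
  field_simp

lemma ww_mul {θ₀ κ k : ℝ} (R : Set (ℝ × ℝ)) (hκ : κ < θ₀ / 2) (hk : 0 < k) (r : ℝ) :
    ww θ₀ κ k R r * ((θ₀ - 2 * κ) * (mu θ₀ κ R r * (1 - mu θ₀ κ R r))) =
      if 1 / k ≤ mu θ₀ κ R r * (1 - mu θ₀ κ R r) then 1 else 0 := by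
  unfold ww
  split_ifs with h
  · have h1 : 0 < mu θ₀ κ R r * (1 - mu θ₀ κ R r) := lt_of_lt_of_le (by positivity) h
    have h2 : (0:ℝ) < θ₀ - 2 * κ := by linarith
    exact inv_mul_cancel₀ (by positivity)
  · ring

lemma ww_nonneg {θ₀ κ k : ℝ} (R : Set (ℝ × ℝ)) (hκ : κ < θ₀ / 2) (hk : 0 < k) (r : ℝ) :
    0 ≤ ww θ₀ κ k R r := by
  unfold ww
  split_ifs with h
  · have h1 : 0 < mu θ₀ κ R r * (1 - mu θ₀ κ R r) := lt_of_lt_of_le (by positivity) h
    have h2 : (0:ℝ) < θ₀ - 2 * κ := by linarith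
    positivity
  · exact le_rfl

lemma ww_le {θ₀ κ k : ℝ} (R : Set (ℝ × ℝ)) (hκ : κ < θ₀ / 2) (hk : 0 < k) (r : ℝ) :
    ww θ₀ κ k R r ≤ k / (θ₀ - 2 * κ) := by
  have h2 : (0:ℝ) < θ₀ - 2 * κ := by linarith
  unfold ww
  split_ifs with h
  · have h1 : 0 < mu θ₀ κ R r * (1 - mu θ₀ κ R r) := lt_of_lt_of_le (by positivity) h
    rw [mul_inv, div_eq_mul_inv, mul_comm]
    apply mul_le_mul_of_nonneg_right _ (by positivity)
    rw [inv_le_comm₀ h1 hk]
    rw [one_div] at h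
    exact h
  · positivity

/-- the data for the step -/
structure Dat (n c d C : ℝ) (g β : ℝ → ℝ) : Prop where
  hc : 0 < c
  hcd : c < d
  hn : 1 < n
  gm : Measurable g
  gb : ∀ r, |g r| ≤ C
  bm : Measurable β
  b0 : ∀ r, 0 ≤ β r
  g0 : ∀ r, r ∉ Icc c d → g r = 0
  bz : ∀ r, r ∉ Icc c d → β r = 0
  gi : ∫ r, g r = 0
  nm : ∀ r, 0 < r → (∫ s in (0 : ℝ)..r, g s) ^ 2 + (r ^ n * β r) ^ 2 ≤ (r ^ n) ^ 2

/-- derivative of the quotient -/
noncomputable def yp (n c d : ℝ) (g : ℝ → ℝ) : ℝ → ℝ :=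
  (Icc c d).indicator (fun s => g s * s ^ (-n) - n * (∫ u in (0:ℝ)..s, g u) * s ^ (-n - 1))

section dat

variable {n c d C : ℝ} {g β : ℝ → ℝ} (D : Dat n c d C g β)

include D

lemma Dat.b1 (r : ℝ) : β r ≤ 1 := by
  by_cases hr : r ∈ Icc c d
  · have h0 : 0 < r := lt_of_lt_of_le D.hc hr.1
    have h1 := D.nm r h0
    have h2 : 0 < r ^ n := Real.rpow_pos_of_pos h0 n
    have h3 : (r ^ n * β r) ^ 2 ≤ (r ^ n) ^ 2 := by nlinarith [sq_nonneg (∫ s in (0 : ℝ)..r, g s)]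
    have h4 : r ^ n * β r ≤ r ^ n := le_of_sq_le_sq h3 h2.le
    by_contra h5
    push Not at h5
    nlinarith
  · rw [D.bz r hr]
    exact zero_le_one

lemma Dat.Yb (r : ℝ) (hr : 0 < r) : |∫ s in (0 : ℝ)..r, g s| ≤ r ^ n := by
  have h1 := D.nm r hr
  have h2 : 0 < r ^ n := Real.rpow_pos_of_pos hr n
  apply abs_le_of_sq_le_sq _ h2.le
  nlinarith [sq_nonneg (r ^ n * β r)]

lemma Dat.yp_meas : Measurable (yp n c d g) := by
  have hgI := integ D.gm D.gb D.g0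
  have hYc : Continuous (fun r => ∫ u in (0:ℝ)..r, g u) :=
    intervalIntegral.continuous_primitive (fun a b => hgI.intervalIntegrable) 0
  apply Measurable.indicator _ measurableSet_Icc
  apply Measurable.sub
  · exact D.gm.mul (measurable_id.pow_const _)
  · exact (measurable_const.mul hYc.measurable).mul (measurable_id.pow_const _)

lemma Dat.C0 : 0 ≤ C := (abs_nonneg _).trans (D.gb 0)

lemma Dat.yp_le (r : ℝ) : |yp n c d g r| ≤ C * c ^ (-n) + n / c := by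
  have hc := D.hc
  have hn := D.hn
  have hC := D.C0
  by_cases hr : r ∈ Icc c d
  · have h0 : 0 < r := lt_of_lt_of_le D.hc hr.1
    unfold yp
    rw [indicator_of_mem hr]
    refine (abs_sub _ _).trans (add_le_add ?_ ?_)
    · rw [abs_mul]
      apply mul_le_mul (D.gb r) _ (abs_nonneg _) hC
      rw [abs_of_pos (Real.rpow_pos_of_pos h0 _)]
      exact Real.rpow_le_rpow_of_nonpos hc hr.1 (by linarith)
    · rw [abs_mul, abs_mul, abs_of_pos (by linarith : 0 < n),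
        abs_of_pos (Real.rpow_pos_of_pos h0 _)]
      have h1 := D.Yb r h0
      have h2 : n * |∫ u in (0:ℝ)..r, g u| * r ^ (-n - 1) ≤ n * r ^ n * r ^ (-n - 1) := by
        apply mul_le_mul_of_nonneg_right _ (Real.rpow_pos_of_pos h0 _).le
        exact mul_le_mul_of_nonneg_left h1 (by linarith)
      refine h2.trans ?_
      rw [mul_assoc, ← Real.rpow_add h0]
      have : n + (-n - 1) = -1 := by ring
      rw [this, Real.rpow_neg_one, ← div_eq_mul_inv]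
      exact div_le_div_of_nonneg_left (by linarith) hc hr.1
  · unfold yp
    rw [indicator_of_notMem hr, abs_zero]
    have := Real.rpow_pos_of_pos hc (-n)
    positivity

lemma Dat.y_eq (r : ℝ) : ∫ s in (0:ℝ)..r, yp n c d g s =
    if r ∈ Icc c d then (∫ u in (0:ℝ)..r, g u) * r ^ (-n) else 0 :=
  prim n D.hc D.hcd D.gm D.gb D.g0 D.gi r

lemma Dat.y_sq (r : ℝ) : (∫ s in (0:ℝ)..r, yp n c d g s) ^ 2 + β r ^ 2 ≤ 1 := by
  rw [D.y_eq r]
  split_ifs with hr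
  · have h0 : 0 < r := lt_of_lt_of_le D.hc hr.1
    have h1 := D.nm r h0
    have h2 : 0 < r ^ n := Real.rpow_pos_of_pos h0 n
    rw [Real.rpow_neg h0.le]
    have h3 : ((∫ u in (0:ℝ)..r, g u) * (r ^ n)⁻¹) ^ 2 + β r ^ 2 =
        ((∫ s in (0 : ℝ)..r, g s) ^ 2 + (r ^ n * β r) ^ 2) / (r ^ n) ^ 2 := by
      field_simp
    rw [h3, div_le_one (by positivity)]
    exact h1
  · have := D.b1 r
    have := D.b0 r
    nlinarith

end dat

end Pool.Agent.R281.SEC
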