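import Pool.Agent.R281.SEC.Step

/-!
# SEC-GEO, part 4: application of the mollified inequality
-/

set_option autoImplicit false

open MeasureTheory Set
open scoped ENNReal

namespace Pool.Agent.R281.SEC

open Pool.R872.SEC

/-- first component -/
noncomputable def F1 (θ₀ κ n c d : ℝ) (g : ℝ → ℝ) (x : ℝ × ℝ) : ℝ :=
  jj κ (θ₀ - κ) x.2 * ∫ s in (0:ℝ)..x.1, yp n c d g s

/-- its radial derivative -/
noncomputable def G1 (θ₀ κ n c d : ℝ) (g : ℝ → ℝ) (x : ℝ × ℝ) : ℝ :=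
  jj κ (θ₀ - κ) x.2 * yp n c d g x.1

/-- second component -/
noncomputable def F2 (θ₀ κ k : ℝ) (R : Set (ℝ × ℝ)) (β : ℝ → ℝ) (x : ℝ × ℝ) : ℝ :=
  β x.1 * ww θ₀ κ k R x.1 * ((∫ s in Iic x.2, chi θ₀ κ R (x.1, s)) -
    mu θ₀ κ R x.1 * ∫ s in Iic x.2, jj κ (θ₀ - κ) s)

/-- its angular derivative -/
noncomputable def G2 (θ₀ κ k : ℝ) (R : Set (ℝ × ℝ)) (β : ℝ → ℝ) (x : ℝ × ℝ) : ℝ :=
  β x.1 * ww θ₀ κ k R x.1 * (chi θ₀ κ R x - mu θ₀ κ R x.1 * jj κ (θ₀ - κ) x.2)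

section s

variable {n c d C : ℝ} {g β : ℝ → ℝ} (D : Dat n c d C g β) {θ₀ κ k : ℝ} (R : Set (ℝ × ℝ))
  (hR : MeasurableSet R) (hκ0 : 0 < κ) (hκ : κ < θ₀ / 2) (hk : 0 < k)

include D in
lemma F1_meas : Measurable (F1 θ₀ κ n c d g) := by
  have h1 : Continuous (fun r => ∫ s in (0:ℝ)..r, yp n c d g s) :=
    intervalIntegral.continuous_primitive (fun a b =>
      (integ D.yp_meas D.yp_le (fun r hr => indicator_of_notMem hr _)).intervalIntegrable) 0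
  exact (jj_meas.comp measurable_snd).mul (h1.measurable.comp measurable_fst)

include D in
lemma G1_meas : Measurable (G1 θ₀ κ n c d g) :=
  (jj_meas.comp measurable_snd).mul (D.yp_meas.comp measurable_fst)

include D hR in
lemma F2_meas : Measurable (F2 θ₀ κ k R β) := by
  unfold F2
  apply Measurable.mul
  · exact (D.bm.comp measurable_fst).mul ((ww_meas θ₀ κ k R hR).comp measurable_fst)
  · apply Measurable.sub (mm_meas θ₀ κ R hR)
    exact ((mu_meas θ₀ κ R hR).comp measurable_fst).mul ((tt_meas κ (θ₀ - κ)).comp measurable_snd)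

include D hR in
lemma G2_meas : Measurable (G2 θ₀ κ k R β) := by
  unfold G2
  apply Measurable.mul
  · exact (D.bm.comp measurable_fst).mul ((ww_meas θ₀ κ k R hR).comp measurable_fst)
  · apply Measurable.sub (chi_meas θ₀ κ R hR)
    exact ((mu_meas θ₀ κ R hR).comp measurable_fst).mul (jj_meas.comp measurable_snd)

include D in
lemma G1_le (x : ℝ × ℝ) : |G1 θ₀ κ n c d g x| ≤ C * c ^ (-n) + n / c := by
  unfold G1
  rw [abs_mul, abs_of_nonneg (jj_nonneg _)]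
  have h1 := D.yp_le x.1
  calc _ ≤ 1 * |yp n c d g x.1| := mul_le_mul_of_nonneg_right (jj_le _) (abs_nonneg _)
    _ ≤ _ := by rw [one_mul]; exact h1

include D hR hκ hk in
lemma G2_le (x : ℝ × ℝ) : |G2 θ₀ κ k R β x| ≤ k / (θ₀ - 2 * κ) := by
  have h1 := D.b1 x.1
  have h0 := D.b0 x.1
  have h2 := ww_nonneg (k := k) R hκ hk x.1
  have h3 := ww_le (k := k) R hκ hk x.1
  have h4 := mu_nonneg R hκ x.1
  have h5 := mu_le R hR hκ x.1
  have h6 := chi_nonneg θ₀ κ R x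
  have h7 := chi_le θ₀ κ R x
  have h8 : jj κ (θ₀ - κ) x.2 ≤ 1 := jj_le _
  have h9 : 0 ≤ jj κ (θ₀ - κ) x.2 := jj_nonneg _
  unfold G2
  rw [abs_mul, abs_mul, abs_of_nonneg h0, abs_of_nonneg h2]
  have h10 : |chi θ₀ κ R x - mu θ₀ κ R x.1 * jj κ (θ₀ - κ) x.2| ≤ 1 := by
    rw [abs_le]
    constructor <;> nlinarith
  have h11 : β x.1 * ww θ₀ κ k R x.1 ≤ k / (θ₀ - 2 * κ) := by
    calc _ ≤ 1 * ww θ₀ κ k R x.1 := mul_le_mul_of_nonneg_right h1 h2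
      _ ≤ _ := by rw [one_mul]; exact h3
  calc _ ≤ k / (θ₀ - 2 * κ) * 1 := mul_le_mul h11 h10 (abs_nonneg _) ((mul_nonneg h0 h2).trans h11)
    _ = _ := mul_one _

include D hR hκ0 hκ hk in
lemma F2_le (x : ℝ × ℝ) : |F2 θ₀ κ k R β x| ≤ β x.1 := by
  have h0 := D.b0 x.1
  have h2 := ww_nonneg (k := k) R hκ hk x.1
  have hf := facts (a := κ) (b := θ₀ - κ) (by linarith) hκ0 (slice_meas θ₀ κ R hR x.1)
    (fun s => chi_nonneg θ₀ κ R (x.1, s)) (fun s => chi_le θ₀ κ R (x.1, s)) x.2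
  obtain ⟨f1, f2, f3, f4, -⟩ := hf
  have hL : (0:ℝ) < θ₀ - 2 * κ := by linarith
  have hA := AA_le R hR hκ x.1
  have h4 : AA θ₀ κ R x.1 - (∫ s in Iic x.2, chi θ₀ κ R (x.1, s)) ≤
      (θ₀ - 2 * κ) - ∫ s in Iic x.2, jj κ (θ₀ - κ) s := by
    have e : θ₀ - κ - κ = θ₀ - 2 * κ := by ring
    rw [e] at f4
    exact f4
  have h5 := combo hL f1 f2 f3 h4 hA
  unfold F2
  rw [abs_mul, abs_mul, abs_of_nonneg h0, abs_of_nonneg h2]
  have h6 := ww_mul (k := k) R hκ hk x.1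
  have h7 : ww θ₀ κ k R x.1 * ((θ₀ - 2 * κ) * (mu θ₀ κ R x.1 * (1 - mu θ₀ κ R x.1))) ≤ 1 := by
    rw [h6]
    split_ifs
    · exact le_rfl
    · exact zero_le_one
  calc _ ≤ β x.1 * ww θ₀ κ k R x.1 *
        ((θ₀ - 2 * κ) * (mu θ₀ κ R x.1 * (1 - mu θ₀ κ R x.1))) :=
        mul_le_mul_of_nonneg_left h5 (mul_nonneg h0 h2)
    _ = β x.1 * (ww θ₀ κ k R x.1 *
        ((θ₀ - 2 * κ) * (mu θ₀ κ R x.1 * (1 - mu θ₀ κ R x.1)))) := by ring
    _ ≤ β x.1 * 1 := mul_le_mul_of_nonneg_left h7 h0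
    _ = _ := mul_one _

include D hR hκ0 hκ hk in
lemma F_sq (x : ℝ × ℝ) : F1 θ₀ κ n c d g x ^ 2 + F2 θ₀ κ k R β x ^ 2 ≤ 1 := by
  have h1 := D.y_sq x.1
  have h2 := F2_le D R hR hκ0 hκ hk x
  have h0 := D.b0 x.1
  have h3 : F2 θ₀ κ k R β x ^ 2 ≤ β x.1 ^ 2 := by
    rw [← sq_abs (F2 θ₀ κ k R β x)]
    exact pow_le_pow_left₀ (abs_nonneg _) h2 2
  have h8 : jj κ (θ₀ - κ) x.2 ≤ 1 := jj_le _
  have h9 : 0 ≤ jj κ (θ₀ - κ) x.2 := jj_nonneg _
  have h4 : F1 θ₀ κ n c d g x ^ 2 ≤ (∫ s in (0:ℝ)..x.1, yp n c d g s) ^ 2 := by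
    unfold F1
    rw [mul_pow]
    have : jj κ (θ₀ - κ) x.2 ^ 2 ≤ 1 := by nlinarith
    nlinarith [sq_nonneg (∫ s in (0:ℝ)..x.1, yp n c d g s)]
  linarith

include D hR hκ0 hκ in
lemma F_zero (x : ℝ × ℝ) (hx : ¬ (c ≤ x.1 ∧ x.1 ≤ d ∧ κ ≤ x.2 ∧ x.2 ≤ θ₀ - κ)) :
    F1 θ₀ κ n c d g x = 0 ∧ F2 θ₀ κ k R β x = 0 ∧ G1 θ₀ κ n c d g x = 0 ∧
      G2 θ₀ κ k R β x = 0 := by
  by_cases h1 : x.1 ∈ Icc c d
  · have h2 : x.2 ∉ Icc κ (θ₀ - κ) := fun h => hx ⟨h1.1, h1.2, h.1, h.2⟩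
    have hj : jj κ (θ₀ - κ) x.2 = 0 := jj_out _ h2
    have hch : chi θ₀ κ R x = 0 := by
      have := chi_le θ₀ κ R x
      rw [hj] at this
      exact le_antisymm this (chi_nonneg θ₀ κ R x)
    refine ⟨by unfold F1; rw [hj, zero_mul], ?_, by unfold G1; rw [hj, zero_mul],
      by unfold G2; rw [hj, hch]; ring⟩
    have hL : (0:ℝ) < θ₀ - 2 * κ := by linarith
    obtain ⟨-, -, -, -, f5, f6, -⟩ := facts (a := κ) (b := θ₀ - κ) (by linarith) hκ0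
      (slice_meas θ₀ κ R hR x.1) (fun s => chi_nonneg θ₀ κ R (x.1, s))
      (fun s => chi_le θ₀ κ R (x.1, s)) x.2
    obtain ⟨-, -, -, -, g5, g6, -⟩ := facts (a := κ) (b := θ₀ - κ) (by linarith) hκ0
      (jj_meas (a := κ) (b := θ₀ - κ)) (fun s => jj_nonneg s)
      (fun s => le_refl _) x.2
    unfold F2
    rcases lt_or_ge x.2 κ with h3 | h3
    · rw [f5 h3, g5 h3]
      ring
    · have h4 : θ₀ - κ < x.2 := by
        by_contra h5
        exact h2 ⟨h3, not_lt.1 h5⟩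
      rw [f6 h4, g6 h4, jj_integral (by linarith)]
      have h5 := AA_eq (κ := κ) R hκ x.1
      have h6 : ∫ s, chi θ₀ κ R (x.1, s) = (θ₀ - 2 * κ) * mu θ₀ κ R x.1 := h5
      rw [h6]
      ring
  · refine ⟨?_, ?_, ?_, ?_⟩
    · unfold F1
      rw [D.y_eq, if_neg h1, mul_zero]
    · unfold F2
      rw [D.bz _ h1]
      ring
    · unfold G1 yp
      rw [indicator_of_notMem h1, mul_zero]
    · unfold G2
      rw [D.bz _ h1]
      ring

lemma F1_int (r θ : ℝ) : F1 θ₀ κ n c d g (r, θ) = ∫ s in (0 : ℝ)..r, G1 θ₀ κ n c d g (s, θ) := by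
  exact (intervalIntegral.integral_const_mul _ _).symm

include hR hκ0 hκ in
lemma F2_int (r θ : ℝ) : F2 θ₀ κ k R β (r, θ) = ∫ s in (0 : ℝ)..θ, G2 θ₀ κ k R β (r, s) := by
  have hi := chi_int (slice_meas θ₀ κ R hR r) (fun s => chi_nonneg θ₀ κ R (r, s))
      (fun s => chi_le θ₀ κ R (r, s))
  change β r * ww θ₀ κ k R r * ((∫ s in Iic θ, chi θ₀ κ R (r, s)) -
    mu θ₀ κ R r * ∫ s in Iic θ, jj κ (θ₀ - κ) s) = ∫ s in (0 : ℝ)..θ,
      β r * ww θ₀ κ k R r * (chi θ₀ κ R (r, s) - mu θ₀ κ R r * jj κ (θ₀ - κ) s)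
  rw [intervalIntegral.integral_const_mul, intervalIntegral.integral_sub hi.intervalIntegrable
    (jj_int.const_mul _).intervalIntegrable, intervalIntegral.integral_const_mul]
  obtain ⟨-, -, -, -, -, -, f7⟩ := facts (a := κ) (b := θ₀ - κ) (by linarith) hκ0
      (slice_meas θ₀ κ R hR r) (fun s => chi_nonneg θ₀ κ R (r, s))
      (fun s => chi_le θ₀ κ R (r, s)) θ
  obtain ⟨-, -, -, -, -, -, g7⟩ := facts (a := κ) (b := θ₀ - κ) (by linarith) hκ0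
      (jj_meas (a := κ) (b := θ₀ - κ)) (fun s => jj_nonneg s)
      (fun s => le_refl _) θ
  rw [f7, g7]

/-- the radial factor -/
noncomputable def Phi (θ₀ κ k p : ℝ) (R : Set (ℝ × ℝ)) (g β : ℝ → ℝ) (r : ℝ) : ℝ :=
  g r + r ^ p * β r * ww θ₀ κ k R r * (1 - mu θ₀ κ R r)

end s

section t

variable {p c d C : ℝ} {g β : ℝ → ℝ} (D : Dat (p + 1) c d C g β) {θ₀ κ k : ℝ} (R : Set (ℝ × ℝ))
  (hR : MeasurableSet R) (hRs : R ⊆ sector θ₀) (hκ0 : 0 < κ) (hκ : κ < θ₀ / 2) (hk : 0 < k)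

include D hRs in
lemma on_R (x : ℝ × ℝ) (hx : x ∈ R) :
    (p + 1) * x.1 ^ p * F1 θ₀ κ (p + 1) c d g x + x.1 ^ (p + 1) * G1 θ₀ κ (p + 1) c d g x +
      x.1 ^ p * G2 θ₀ κ k R β x = chi θ₀ κ R x * Phi θ₀ κ k p R g β x.1 := by
  have h0 : 0 < x.1 := (hRs hx).1
  have hch : chi θ₀ κ R x = jj κ (θ₀ - κ) x.2 := indicator_of_mem hx _
  unfold F1 G1 G2 Phi
  rw [hch, D.y_eq]
  by_cases h1 : x.1 ∈ Icc c d
  · rw [if_pos h1]
    unfold yp
    rw [indicator_of_mem h1]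
    have e1 : x.1 ^ (p + 1) = x.1 ^ p * x.1 := by rw [Real.rpow_add_one h0.ne']
    have e2 : x.1 ^ (-(p + 1)) = (x.1 ^ p * x.1)⁻¹ := by rw [Real.rpow_neg h0.le, e1]
    have e3 : x.1 ^ (-(p + 1) - 1) = (x.1 ^ p * x.1)⁻¹ / x.1 := by
      rw [Real.rpow_sub_one h0.ne', e2]
    have h2 : 0 < x.1 ^ p := Real.rpow_pos_of_pos h0 p
    rw [e1, e2, e3]
    generalize (∫ u in (0:ℝ)..x.1, g u) = Y
    generalize hxp : x.1 ^ p = X at *
    field_simp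
    ring
  · rw [if_neg h1, D.g0 _ h1, D.bz _ h1]
    unfold yp
    rw [indicator_of_notMem h1]
    ring

include D hR in
lemma Phi_meas : Measurable (Phi θ₀ κ k p R g β) := by
  unfold Phi
  apply D.gm.add
  apply Measurable.mul
  · exact ((measurable_id.pow_const _).mul D.bm).mul (ww_meas θ₀ κ k R hR)
  · exact measurable_const.sub (mu_meas θ₀ κ R hR)

include D hR hκ hk in
lemma Phi_le (r : ℝ) : |Phi θ₀ κ k p R g β r| ≤
    (Icc c d).indicator (fun _ => C + d ^ p * (k / (θ₀ - 2 * κ))) r := by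
  by_cases h1 : r ∈ Icc c d
  · rw [indicator_of_mem h1]
    unfold Phi
    have h0 : 0 < r := lt_of_lt_of_le D.hc h1.1
    refine (abs_add_le _ _).trans (add_le_add (D.gb r) ?_)
    have h2 := ww_nonneg (k := k) R hκ hk r
    have h3 := ww_le (k := k) R hκ hk r
    have h4 := mu_nonneg R hκ r
    have h5 := mu_le R hR hκ r
    have h6 : r ^ p ≤ d ^ p := Real.rpow_le_rpow h0.le h1.2 (by linarith [D.hn])
    have h7 : 0 < r ^ p := Real.rpow_pos_of_pos h0 p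
    have hb0 := D.b0 r
    have hb1 := D.b1 r
    rw [abs_of_nonneg (by have := sub_nonneg.2 h5; positivity)]
    have a1 : r ^ p * β r ≤ d ^ p := by
      calc _ ≤ r ^ p * 1 := mul_le_mul_of_nonneg_left hb1 h7.le
        _ ≤ _ := by rw [mul_one]; exact h6
    have a2 : r ^ p * β r * ww θ₀ κ k R r ≤ d ^ p * (k / (θ₀ - 2 * κ)) :=
      mul_le_mul a1 h3 h2 (h7.le.trans h6)
    calc _ ≤ r ^ p * β r * ww θ₀ κ k R r * 1 := by
          apply mul_le_mul_of_nonneg_left (by linarith)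
          positivity
      _ ≤ _ := by rw [mul_one]; exact a2
  · rw [indicator_of_notMem h1]
    unfold Phi
    rw [D.g0 _ h1, D.bz _ h1]
    simp

include D hR hRs hκ0 hκ hk in
theorem step (h : S_MOL) (hθ : 0 < θ₀) (hp : 0 < p) {P : ℝ} (hP : 0 ≤ P)
    (hper : perimeter θ₀ p R ≤ ENNReal.ofReal P) :
    ∫ r, (g r * AA θ₀ κ R r + r ^ p * β r *
      (if 1 / k ≤ mu θ₀ κ R r * (1 - mu θ₀ κ R r) then 1 else 0)) ≤ P := by
  have hL : (0:ℝ) < θ₀ - 2 * κ := by linarith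
  have hC0 := D.C0
  have hcn := Real.rpow_pos_of_pos D.hc (-(p + 1))
  have hc := D.hc
  have b1 : 0 ≤ C * c ^ (-(p + 1)) + (p + 1) / c := by positivity
  have b2 : 0 ≤ k / (θ₀ - 2 * κ) := by positivity
  have h1 := h θ₀ p hθ hp R hR hRs P hP hper (F1 θ₀ κ (p + 1) c d g) (F2 θ₀ κ k R β)
    (G1 θ₀ κ (p + 1) c d g) (G2 θ₀ κ k R β) c d κ
    ((C * c ^ (-(p + 1)) + (p + 1) / c) + k / (θ₀ - 2 * κ)) D.hc D.hcd hκ0 hκ
    (F1_meas D) (F2_meas D R hR) (G1_meas D) (G2_meas D R hR)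
    (fun x => (G1_le D x).trans (by linarith))
    (fun x => (G2_le D R hR hκ hk x).trans (by linarith)) (F_sq D R hR hκ0 hκ hk)
    (F_zero D R hR hκ0 hκ) (F1_int) (F2_int R hR hκ0 hκ)
  rw [setIntegral_congr_fun hR (fun x hx => on_R D R hRs (κ := κ) (k := k) x hx)] at h1
  rw [setIntegral_eq_integral_of_forall_compl_eq_zero] at h1
  swap
  · intro x hx
    unfold chi
    rw [indicator_of_notMem hx, zero_mul]
  have hint : Integrable (fun x : ℝ × ℝ => chi θ₀ κ R x * Phi θ₀ κ k p R g β x.1)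
      (volume.prod volume) := by
    have h2 : Integrable (fun x : ℝ × ℝ => (Icc c d).indicator
        (fun _ => C + d ^ p * (k / (θ₀ - 2 * κ))) x.1 * jj κ (θ₀ - κ) x.2)
        (volume.prod volume) := by
      apply Integrable.mul_prod
      · exact (integrable_indicator_iff measurableSet_Icc).2 (integrableOn_const (by simp))
      · exact jj_int
    refine h2.mono' ((chi_meas θ₀ κ R hR).mul
      ((Phi_meas D R hR).comp measurable_fst)).aestronglyMeasurable (ae_of_all _ fun x => ?_)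
    rw [Real.norm_eq_abs, abs_mul, abs_of_nonneg (chi_nonneg θ₀ κ R x), mul_comm]
    exact mul_le_mul (Phi_le D R hR hκ hk x.1) (chi_le θ₀ κ R x) (chi_nonneg θ₀ κ R x)
      ((abs_nonneg _).trans (Phi_le D R hR hκ hk x.1))
  have h3 := integral_prod _ hint
  have h4 : (volume : Measure (ℝ × ℝ)) = volume.prod volume := rfl
  rw [h4, h3] at h1
  refine le_trans (le_of_eq ?_) h1
  congr 1
  funext r
  have h5 : ∫ s, chi θ₀ κ R (r, s) * Phi θ₀ κ k p R g β (r, s).1 =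
      AA θ₀ κ R r * Phi θ₀ κ k p R g β r := by
    change ∫ s, chi θ₀ κ R (r, s) * Phi θ₀ κ k p R g β r = _
    rw [integral_mul_const]
    rfl
  rw [h5]
  have h6 := ww_mul (k := k) R hκ hk r
  rw [← h6]
  unfold Phi
  rw [AA_eq R hκ r]
  ring

end t

end Pool.Agent.R281.SEC
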